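import Pool.Agent.Run7.h386.FC.Mono

set_option autoImplicit false

/-!
Feynman checkers: the maximisers are not within a bounded distance of `t / √2`.
-/

namespace Pool.Agent.Run7.h386.FC

open Filter

lemma aa_nonneg {K m : ℕ} (hm : m + 2 ≤ 2 * K) : 0 ≤ aa K ((m : ℝ) - K) := by
  have h : (m : ℝ) + 2 ≤ 2 * K := by exact_mod_cast hm
  have h0 : (0 : ℝ) ≤ m := Nat.cast_nonneg m
  unfold aa
  have e1 : (0 : ℝ) ≤ 2 * ((K : ℝ) + (m - K)) := by linarith
  have e2 : (0 : ℝ) ≤ 8 * ((K : ℝ) - (m - K)) - 9 := by linarith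
  exact mul_nonneg e1 e2

lemma aa_pos {K m : ℕ} (h1 : 1 ≤ m) (hm : m + 2 ≤ 2 * K) : 0 < aa K ((m : ℝ) - K) := by
  have h : (m : ℝ) + 2 ≤ 2 * K := by exact_mod_cast hm
  have h0 : (1 : ℝ) ≤ m := by exact_mod_cast h1
  unfold aa
  have e1 : (0 : ℝ) < 2 * ((K : ℝ) + (m - K)) := by linarith
  have e2 : (0 : ℝ) < 8 * ((K : ℝ) - (m - K)) - 9 := by linarith
  exact mul_pos e1 e2

/-- All conditions on `p` needed for the steps `m ≤ 2 K`. -/
def Good (K : ℕ) (p : ℝ) : Prop :=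
  ∀ m ∈ Finset.range (2 * K + 1), 0 < W ((m : ℝ) + 1 - K) p ∧ 0 < G ((m : ℝ) + 1 - K) p ∧
    (-32 * ((m : ℝ) + 1 - K) - 1) * W ((m : ℝ) + 1 - K) p ≤ p * E ((m : ℝ) + 1 - K) p ∧
    (p - 7) * W ((m : ℝ) + 1 - K) p ≤ p * G ((m : ℝ) + 1 - K) p ∧
    aa K ((m : ℝ) - K) * (aa K ((m : ℝ) - K) + 7) ≤ p

lemma ev_good (K : ℕ) : ∀ᶠ p : ℝ in atTop, Good K p := by
  unfold Good
  rw [Filter.eventually_all_finset]
  intro m _
  filter_upwards [ev_W ((m : ℝ) + 1 - K), ev_G ((m : ℝ) + 1 - K), ev_E ((m : ℝ) + 1 - K),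
    ev_GW ((m : ℝ) + 1 - K),
    eventually_ge_atTop (aa K ((m : ℝ) - K) * (aa K ((m : ℝ) - K) + 7))] with p h1 h2 h3 h4 h5
  exact ⟨h1, h2, h3, h4, h5⟩

/-- The increments around the turning point. -/
lemma phase2 {K n l : ℕ} {p : ℝ} (hn : 0 < n) (hp : 1 ≤ p) (hpn : 2 * p ^ 2 = (n : ℝ) ^ 2 + 2)
    (hl : 1 ≤ l) (hk0 : p + 2 * (K + l) = (n : ℝ) + 1) (hg : Good K p) :
    ∀ m : ℕ, m + 2 ≤ 2 * K → 0 < MM n (l + m) ∧
      aa K ((m : ℝ) - K) * MM n (l + m) ≤ p * (MM n (l + m + 1) - MM n (l + m)) := by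
  intro m
  induction m with
  | zero =>
    intro _
    have hK0 : (0 : ℝ) ≤ K := Nat.cast_nonneg K
    obtain ⟨l', rfl⟩ : ∃ l', l = l' + 1 := ⟨l - 1, by omega⟩
    have h1 := phase1 hn hp hpn l' (by push_cast at hk0; linarith)
    have h2 := phase1 hn hp hpn (l' + 1) (by push_cast at hk0 ⊢; linarith)
    have e : aa K (((0 : ℕ) : ℝ) - K) = 0 := by unfold aa; push_cast; ring
    rw [e, zero_mul, add_zero]
    exact ⟨h1.1, mul_nonneg (by linarith) (sub_nonneg.2 h2.2)⟩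
  | succ m ih =>
    intro hm
    obtain ⟨h1, h2⟩ := ih (by omega)
    obtain ⟨g1, g2, g3, g4, g5⟩ := hg m (by simp; omega)
    have ha := aa_nonneg (K := K) (m := m) (by omega)
    have hpos : 0 < MM n (l + m + 1) := by
      have : 0 ≤ p * (MM n (l + m + 1) - MM n (l + m)) := (mul_nonneg ha h1.le).trans h2
      have : 0 ≤ MM n (l + m + 1) - MM n (l + m) := by
        by_contra hcon
        push Not at hcon
        nlinarith
      linarith
    have hthree := three n (l + m)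
    have hrec : W ((m : ℝ) + 1 - K) p * (MM n (l + m + 2) - MM n (l + m + 1))
        = E ((m : ℝ) + 1 - K) p * MM n (l + m + 1)
          + G ((m : ℝ) + 1 - K) p * (MM n (l + m + 1) - MM n (l + m)) := by
      have hn2 : (n : ℝ) = p + 2 * (K + l) - 1 := by linarith
      have hsq : (n : ℝ) ^ 2 = 2 * p ^ 2 - 2 := by linarith
      have eW : W ((m : ℝ) + 1 - K) p
          = 4 * ((((l + m : ℕ) : ℝ) + 1) * ((n : ℝ) - 1 - (l + m : ℕ)) * ((n : ℝ) - 2 * (l + m : ℕ))) := by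
        unfold W
        have e1 : 2 * p ^ 2 - 2 = (n : ℝ) ^ 2 := by linarith
        rw [e1, hn2]
        push_cast
        ring
      have eG : G ((m : ℝ) + 1 - K) p
          = 4 * (((n : ℝ) - 2 - 2 * (l + m : ℕ)) * ((n : ℝ) - (l + m : ℕ)) * (l + m : ℕ)) := by
        unfold G
        have e1 : 2 * p ^ 2 - 2 = (n : ℝ) ^ 2 := by linarith
        rw [e1, hn2]
        push_cast
        ring
      have eE : E ((m : ℝ) + 1 - K) p
          = 4 * (((n : ℝ) - 1 - 2 * (l + m : ℕ)) * (2 * ((n : ℝ) - 1 - 2 * (l + m : ℕ)) ^ 2 - 2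
            - (n : ℝ) ^ 2)) := by
        unfold E
        rw [hsq]
        have e2 : (n : ℝ) - 1 - 2 * (l + m : ℕ) = p - 2 * ((m : ℝ) + 1 - K) := by
          rw [hn2]; push_cast; ring
        rw [e2]
        ring
      rw [eW, eG, eE]
      linear_combination 4 * hthree
    have hs := step (p := p) (i := (m : ℝ) + 1 - K) (a := aa K ((m : ℝ) - K))
      (a' := aa K (((m + 1 : ℕ) : ℝ) - K)) (by linarith) g1 g2 g3 g4 ha
      (by
        have := aa_succ (K : ℝ) ((m : ℝ) - K)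
        have e : (((m + 1 : ℕ) : ℝ) - K) = (m : ℝ) - K + 1 := by push_cast; ring
        rw [e, this]; ring)
      g5 hpos hrec h2
    exact ⟨hpos, hs⟩

/-- the probability (without the factor `2 ^ (-n)`) -/
noncomputable def QQ (n : ℕ) (y : ℤ) : ℝ := (am n y).1 ^ 2 + (am n y).2 ^ 2

lemma QQ_eq (n k : ℕ) : QQ n ((n : ℤ) + 1 - 2 * k) = RR n k ^ 2 + MM n k ^ 2 := by
  unfold QQ RR MM
  have hs : ((-1 : ℝ) ^ k) ^ 2 = 1 := by rw [← pow_mul, mul_comm, pow_mul]; norm_num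
  rw [neg_sq, mul_pow, mul_pow, hs, one_mul, one_mul]

/-- The probability increases around the turning point when the point moves to the left. -/
lemma incr {K n l : ℕ} {p : ℝ} (hn : 0 < n) (hp : 1 ≤ p) (hpn : 2 * p ^ 2 = (n : ℝ) ^ 2 + 2)
    (hl : 1 ≤ l) (hk0 : p + 2 * (K + l) = (n : ℝ) + 1) (hg : Good K p) (hpK : 2 * (K : ℝ) + 3 < p)
    {m : ℕ} (hm1 : 1 ≤ m) (hm : m + 3 ≤ 2 * K) :
    QQ n ((n : ℤ) + 1 - 2 * (l + m : ℕ)) < QQ n ((n : ℤ) + 1 - 2 * (l + m : ℕ) - 2) := by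
  have e : (n : ℤ) + 1 - 2 * (l + m : ℕ) - 2 = (n : ℤ) + 1 - 2 * (l + m + 1 : ℕ) := by
    push_cast; ring
  rw [e, QQ_eq, QQ_eq]
  obtain ⟨a1, b1⟩ := phase2 hn hp hpn hl hk0 hg m (by omega)
  obtain ⟨a2, b2⟩ := phase2 hn hp hpn hl hk0 hg (m + 1) (by omega)
  have c1 := aa_pos (K := K) hm1 (by omega)
  have c2 := aa_pos (K := K) (m := m + 1) (by omega) (by omega)
  have hp0 : 0 < p := by linarith
  have d1 : MM n (l + m) < MM n (l + m + 1) := by
    have : 0 < p * (MM n (l + m + 1) - MM n (l + m)) := (mul_pos c1 a1).trans_le b1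
    have := (pos_iff_pos_of_mul_pos this).1 hp0
    linarith
  have d2 : MM n (l + m + 1) < MM n (l + m + 2) := by
    have : 0 < p * (MM n (l + (m + 1) + 1) - MM n (l + (m + 1))) := (mul_pos c2 a2).trans_le b2
    have := (pos_iff_pos_of_mul_pos this).1 hp0
    have e1 : l + (m + 1) + 1 = l + m + 2 := by ring
    have e2 : l + (m + 1) = l + m + 1 := by ring
    rw [e1, e2] at this
    linarith
  have r1 := relB n (l + m)
  have r2 := relB n (l + m + 1)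
  have hmK : (m : ℝ) + 3 ≤ 2 * K := by exact_mod_cast hm
  set k : ℝ := ((l + m : ℕ) : ℝ) with hk
  have hkv : (n : ℝ) - 2 * k - 2 = p + 2 * K - 2 * m - 3 := by
    rw [hk]; push_cast; linarith
  have hk0' : 0 ≤ k := Nat.cast_nonneg _
  have q1 : 0 < (n : ℝ) - 2 * k - 2 := by rw [hkv]; linarith
  have ek : (((l + m + 1 : ℕ)) : ℝ) = k + 1 := by rw [hk]; push_cast; ring
  rw [ek] at r2
  have r2' : ((n : ℝ) - k - 1) * (MM n (l + m + 2) + MM n (l + m + 1))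
      = ((n : ℝ) - 2 * k - 2) * RR n (l + m + 1) := by
    have : ((n : ℝ) - (k + 1)) * (MM n (l + m + 2) + MM n (l + m + 1))
      = ((n : ℝ) - 2 * (k + 1)) * RR n (l + m + 1) := r2
    linear_combination this
  have q2 : 0 < (n : ℝ) - k - 1 := by linarith
  have hR1 : 0 < RR n (l + m) := by
    have h : 0 < ((n : ℝ) - 2 * k) * RR n (l + m) := by
      rw [← r1]
      apply mul_pos (by linarith)
      linarith
    exact (pos_iff_pos_of_mul_pos h).1 (by linarith)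
  have hR2 : RR n (l + m) < RR n (l + m + 1) := by
    -- (n-k)(n-k-1)(M2+M1) > (n-k)(n-k-1)(M1+M0)
    have h1 : ((n : ℝ) - k) * ((n : ℝ) - 2 * k - 2) * RR n (l + m + 1)
        > ((n : ℝ) - k - 1) * (((n : ℝ) - 2 * k) * RR n (l + m)) := by
      rw [← r1]
      have : ((n : ℝ) - k) * ((n : ℝ) - 2 * k - 2) * RR n (l + m + 1)
          = ((n : ℝ) - k) * (((n : ℝ) - k - 1) * (MM n (l + m + 2) + MM n (l + m + 1))) := by
        rw [r2']; ring
      rw [this]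
      have h3 : 0 < ((n : ℝ) - k) * ((n : ℝ) - k - 1) := mul_pos (by linarith) q2
      have h4 : 0 < (MM n (l + m + 2) + MM n (l + m + 1)) - (MM n (l + m + 1) + MM n (l + m)) := by
        linarith
      nlinarith [mul_pos h3 h4]
    have h5 : ((n : ℝ) - k - 1) * ((n : ℝ) - 2 * k) = ((n : ℝ) - k) * ((n : ℝ) - 2 * k - 2) + n := by
      ring
    have h6 : (0 : ℝ) < n := by exact_mod_cast hn
    have h7 : 0 < ((n : ℝ) - k) * ((n : ℝ) - 2 * k - 2) := mul_pos (by linarith) q1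
    have h8 : 0 < (n : ℝ) * RR n (l + m) := mul_pos h6 hR1
    have h9 : ((n : ℝ) - k) * ((n : ℝ) - 2 * k - 2) * RR n (l + m)
        < ((n : ℝ) - k) * ((n : ℝ) - 2 * k - 2) * RR n (l + m + 1) := by
      calc ((n : ℝ) - k) * ((n : ℝ) - 2 * k - 2) * RR n (l + m)
          < ((n : ℝ) - k) * ((n : ℝ) - 2 * k - 2) * RR n (l + m) + n * RR n (l + m) := by linarith
        _ = ((n : ℝ) - k - 1) * (((n : ℝ) - 2 * k) * RR n (l + m)) := by rw [← mul_assoc, h5]; ring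
        _ < _ := h1
    exact lt_of_mul_lt_mul_left h9 h7.le
  nlinarith

/-- Arbitrarily large solutions of the Pell equation. -/
lemma pell (B : ℕ) : ∃ p q : ℕ, p ^ 2 = 2 * q ^ 2 + 1 ∧ B ≤ p ∧ 1 ≤ q := by
  induction B with
  | zero => exact ⟨3, 2, by norm_num, by omega, by omega⟩
  | succ B ih =>
    obtain ⟨p, q, h, h1, h2⟩ := ih
    refine ⟨3 * p + 4 * q, 2 * p + 3 * q, ?_, by omega, by omega⟩
    nlinarith

lemma exists_max (n : ℕ) : ∃ x : ℤ, ∀ y : ℤ, QQ n y ≤ QQ n x := by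
  obtain ⟨x, hx, hmax⟩ := (Finset.Icc (-(n : ℤ)) ((n : ℤ) + 1)).exists_max_image (QQ n)
    ⟨(n : ℤ) + 1, by simp; omega⟩
  refine ⟨x, fun y => ?_⟩
  by_cases hy : y ∈ Finset.Icc (-(n : ℤ)) ((n : ℤ) + 1)
  · exact hmax y hy
  · have h0 : QQ n y = 0 := by
      rw [Finset.mem_Icc, not_and_or] at hy
      rcases hy with hy | hy
      · simp [QQ, supp_left n y (by omega)]
      · simp [QQ, supp_right n y (by omega)]
    rw [h0]
    unfold QQ
    positivity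

/-- For all `C` there is a time at which all maximisers have distance more than `C` from
`t / √2`. -/
theorem far (C : ℝ) : ∃ n : ℕ, ∀ x : ℤ, (∀ y : ℤ, QQ n y ≤ QQ n x) →
    C < |(x : ℝ) - ((n : ℝ) + 1) / Real.sqrt 2| := by
  obtain ⟨K, hK⟩ := exists_nat_ge (|C| + 5)
  have hK5 : (5 : ℝ) ≤ K := le_trans (by linarith [abs_nonneg C]) hK
  obtain ⟨B, hB⟩ := eventually_atTop.1 (ev_good K)
  obtain ⟨B', hB'⟩ := exists_nat_ge (max B (20 * (K : ℝ) + 20))
  obtain ⟨p, q, hpq, hpB, hq⟩ := pell B'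
  have hpB1 : B ≤ (p : ℝ) := (le_max_left _ _).trans (hB'.trans (by exact_mod_cast hpB))
  have hpB2 : 20 * (K : ℝ) + 20 ≤ (p : ℝ) :=
    (le_max_right _ _).trans (hB'.trans (by exact_mod_cast hpB))
  have hg := hB (p : ℝ) hpB1
  refine ⟨2 * q, fun x hx => ?_⟩
  by_contra hcon
  push Not at hcon
  -- basic facts
  have hpodd : p % 2 = 1 := by
    have h : p ^ 2 % 2 = 1 := by omega
    rcases Nat.mod_two_eq_zero_or_one p with h0 | h0
    · rw [Nat.pow_mod, h0] at h; norm_num at h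
    · exact h0
  have hpqR : (p : ℝ) ^ 2 = 2 * (q : ℝ) ^ 2 + 1 := by exact_mod_cast hpq
  have hq0 : (1 : ℝ) ≤ q := by exact_mod_cast hq
  have hp0 : (0 : ℝ) ≤ p := Nat.cast_nonneg p
  have hqp1 : (q : ℝ) ≤ p := by nlinarith
  have hqp2 : 1.4 * (p : ℝ) ≤ 2 * q := by nlinarith
  -- s2 = √2
  have hs2 : Real.sqrt 2 ^ 2 = 2 := Real.sq_sqrt (by norm_num)
  have hs0 : 0 < Real.sqrt 2 := Real.sqrt_pos.2 (by norm_num)
  have hs1 : Real.sqrt 2 < 1.5 := by
    rw [show (1.5 : ℝ) = Real.sqrt (1.5 ^ 2) by rw [Real.sqrt_sq (by norm_num)]]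
    exact Real.sqrt_lt_sqrt (by norm_num) (by norm_num)
  have hs3 : 1.4 < Real.sqrt 2 := by
    rw [show (1.4 : ℝ) = Real.sqrt (1.4 ^ 2) by rw [Real.sqrt_sq (by norm_num)]]
    exact Real.sqrt_lt_sqrt (by norm_num) (by norm_num)
  have hclose : |(((2 * q : ℕ) : ℝ) + 1) / Real.sqrt 2 - p| ≤ 1 := by
    have h1 : (((2 * q : ℕ) : ℝ) + 1) / Real.sqrt 2 = q * Real.sqrt 2 + 1 / Real.sqrt 2 := by
      have : Real.sqrt 2 ≠ 0 := hs0.ne'
      field_simp
      push_cast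
      rw [hs2]
    have h2 : 1 / Real.sqrt 2 < 1 := by rw [div_lt_one hs0]; linarith
    have h3 : 0 < 1 / Real.sqrt 2 := by positivity
    have h4 : (q * Real.sqrt 2) ^ 2 = (p : ℝ) ^ 2 - 1 := by rw [mul_pow, hs2]; linarith
    have h5 : 0 ≤ q * Real.sqrt 2 := by positivity
    have h6 : q * Real.sqrt 2 ≤ p := by nlinarith
    have h7 : (p : ℝ) - 1 ≤ q * Real.sqrt 2 := by nlinarith
    rw [h1, abs_le]
    constructor <;> linarith
  have hxp : |(x : ℝ) - p| ≤ |C| + 1 := by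
    have h1 := abs_add_le ((x : ℝ) - (((2 * q : ℕ) : ℝ) + 1) / Real.sqrt 2)
      ((((2 * q : ℕ) : ℝ) + 1) / Real.sqrt 2 - p)
    have h2 : (x : ℝ) - (((2 * q : ℕ) : ℝ) + 1) / Real.sqrt 2
      + ((((2 * q : ℕ) : ℝ) + 1) / Real.sqrt 2 - p) = (x : ℝ) - p := by ring
    rw [h2] at h1
    have h3 := le_abs_self C
    linarith
  have hxK : |(x : ℝ) - p| ≤ (K : ℝ) - 4 := hxp.trans (by linarith)
  obtain ⟨hx1, hx2⟩ := abs_le.1 hxK
  -- x has the right parity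
  have hpar : (x + ((2 * q : ℕ) : ℤ)) % 2 = 1 := by
    by_contra hne
    have h0 : (x + ((2 * q : ℕ) : ℤ)) % 2 = 0 := by omega
    have h1 := am_parity (2 * q) x h0
    have h2 := hx (((2 * q : ℕ) : ℤ) + 1)
    have h3 := am_top (2 * q)
    unfold QQ at h2
    rw [h1, h3] at h2
    norm_num at h2
  -- integers
  have hx1' : (p : ℤ) + 4 ≤ x + K := by
    have : (p : ℝ) + 4 ≤ (x : ℝ) + K := by linarith
    exact_mod_cast this
  have hx2' : x + 4 ≤ (p : ℤ) + K := by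
    have : (x : ℝ) + 4 ≤ (p : ℝ) + K := by linarith
    exact_mod_cast this
  have hqp3 : 7 * (p : ℤ) ≤ 10 * q := by
    have : 7 * (p : ℝ) ≤ 10 * q := by linarith
    exact_mod_cast this
  have hpK' : 20 * (K : ℤ) + 20 ≤ p := by exact_mod_cast hpB2
  -- l with p + 2 (K + l) = 2 q + 1
  obtain ⟨l, hl⟩ : ∃ l : ℕ, (p : ℤ) + 2 * (K + l) = 2 * q + 1 := by
    refine ⟨((2 * (q : ℤ) + 1 - p) / 2 - K).toNat, ?_⟩
    have : (0 : ℤ) ≤ (2 * (q : ℤ) + 1 - p) / 2 - K := by omega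
    rw [Int.toNat_of_nonneg this]
    omega
  have hl1 : 1 ≤ l := by omega
  obtain ⟨m, hm⟩ : ∃ m : ℕ, (((2 * q : ℕ) : ℤ) + 1 - 2 * (l + m : ℕ)) = x := by
    refine ⟨((2 * (q : ℤ) + 1 - 2 * l - x) / 2).toNat, ?_⟩
    have : (0 : ℤ) ≤ (2 * (q : ℤ) + 1 - 2 * l - x) / 2 := by omega
    push_cast
    rw [Int.toNat_of_nonneg this]
    push_cast at hpar
    omega
  have hm1 : 1 ≤ m := by push_cast at hm; omega
  have hm2 : m + 3 ≤ 2 * K := by push_cast at hm; omega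
  have hlR : (p : ℝ) + 2 * (K + l) = ((2 * q : ℕ) : ℝ) + 1 := by
    have : ((p : ℤ) : ℝ) + 2 * (((K : ℤ) : ℝ) + ((l : ℤ) : ℝ)) = 2 * ((q : ℤ) : ℝ) + 1 := by
      exact_mod_cast hl
    push_cast at this ⊢
    exact this
  have hfin := incr (K := K) (n := 2 * q) (l := l) (p := p) (by omega) (by linarith)
    (by push_cast; nlinarith) hl1 hlR hg (by linarith) hm1 hm2
  rw [hm] at hfin
  exact absurd (hx (x - 2)) (not_le.2 hfin)

end Pool.Agent.Run7.h386.FC
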