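import Pool.Agent.Run7.h386.FC.Rec

set_option autoImplicit false

/-!
The sequence `MM n k` is increasing slightly beyond the turning point.
-/

namespace Pool.Agent.Run7.h386.FC

open Filter

/-- The three term recurrence for `MM`. -/
lemma three (n j : ℕ) :
    ((j : ℝ) + 1) * ((n : ℝ) - 1 - j) * ((n : ℝ) - 2 * j) * (MM n (j + 2) - MM n (j + 1))
      = ((n : ℝ) - 1 - 2 * j) * (2 * ((n : ℝ) - 1 - 2 * j) ^ 2 - 2 - (n : ℝ) ^ 2) * MM n (j + 1)
        + ((n : ℝ) - 2 - 2 * j) * ((n : ℝ) - j) * j * (MM n (j + 1) - MM n j) := by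
  have h1 := relB n (j + 1)
  have h2 := relA n j
  have h3 := relB n j
  push_cast at h1 h2 h3
  linear_combination (((j : ℝ) + 1) * ((n : ℝ) - 2 * j)) * h1
    + (((n : ℝ) - 2 * j) * ((n : ℝ) - 2 - 2 * j)) * h2
    + (((n : ℝ) - 2 - 2 * j) * j) * h3

lemma MM_one {n : ℕ} (hn : 0 < n) : MM n 1 = 1 := by
  have h := relB n 0
  rw [MM_zero, RR_zero] at h
  have hn' : (n : ℝ) ≠ 0 := by positivity
  push_cast at h
  simp only [sub_zero, add_zero, mul_zero, mul_one] at h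
  have : (n : ℝ) * (MM n 1 - 1) = 0 := by
    have h' : (n : ℝ) * MM n (0 + 1) = n := h
    rw [zero_add] at h'
    linear_combination h'
  rcases mul_eq_zero.1 this with h | h
  · exact absurd h hn'
  · linarith

/-- Before the turning point. -/
lemma phase1 {n : ℕ} {p : ℝ} (hn : 0 < n) (hp : 1 ≤ p) (hpn : 2 * p ^ 2 = (n : ℝ) ^ 2 + 2) :
    ∀ k : ℕ, p + 2 * k ≤ (n : ℝ) + 1 → 0 < MM n (k + 1) ∧ MM n k ≤ MM n (k + 1) := by
  intro k
  induction k with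
  | zero =>
    intro _
    rw [zero_add, MM_one hn, MM_zero]
    norm_num
  | succ k ih =>
    intro hk
    push_cast at hk
    obtain ⟨h1, h2⟩ := ih (by linarith)
    have h3 := three n k
    have hk0 : (0 : ℝ) ≤ k := Nat.cast_nonneg k
    have hc : 0 < ((k : ℝ) + 1) * ((n : ℝ) - 1 - k) * ((n : ℝ) - 2 * k) := by
      have : (0 : ℝ) < (n : ℝ) - 1 - k := by linarith
      have : (0 : ℝ) < (n : ℝ) - 2 * k := by linarith
      positivity
    have hy : p ≤ (n : ℝ) - 1 - 2 * k := by linarith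
    have hE : 0 ≤ ((n : ℝ) - 1 - 2 * k) * (2 * ((n : ℝ) - 1 - 2 * k) ^ 2 - 2 - (n : ℝ) ^ 2) := by
      apply mul_nonneg (by linarith)
      nlinarith
    have hG : 0 ≤ ((n : ℝ) - 2 - 2 * k) * ((n : ℝ) - k) * k := by
      have a : (0 : ℝ) ≤ (n : ℝ) - 2 - 2 * k := by linarith
      have b : (0 : ℝ) ≤ (n : ℝ) - k := by linarith
      positivity
    have hD : 0 ≤ MM n (k + 2) - MM n (k + 1) := by
      by_contra hcon
      push Not at hcon
      have l : ((k : ℝ) + 1) * ((n : ℝ) - 1 - k) * ((n : ℝ) - 2 * k) * (MM n (k + 2) - MM n (k + 1)) < 0 :=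
        mul_neg_of_pos_of_neg hc hcon
      have r1 := mul_nonneg hE h1.le
      have r2 := mul_nonneg hG (sub_nonneg.2 h2)
      linarith
    refine ⟨?_, ?_⟩
    · show 0 < MM n (k + 2)
      linarith
    · show MM n (k + 1) ≤ MM n (k + 2)
      linarith

lemma cubic_pos (c2 c1 c0 : ℝ) : ∀ᶠ p : ℝ in atTop, 0 < p ^ 3 + c2 * p ^ 2 + c1 * p + c0 := by
  filter_upwards [eventually_gt_atTop (1 + |c2| + |c1| + |c0|)] with p hp
  have h2 := neg_abs_le c2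
  have h1 := neg_abs_le c1
  have h0 := neg_abs_le c0
  have a2 := abs_nonneg c2
  have a1 := abs_nonneg c1
  have a0 := abs_nonneg c0
  have hp1 : 1 < p := by linarith
  have e1 : 0 ≤ (c2 + |c2|) * p ^ 2 := mul_nonneg (by linarith) (by positivity)
  have e2 : 0 ≤ (c1 + |c1|) * p := mul_nonneg (by linarith) (by positivity)
  have e3 : |c1| * p ≤ |c1| * p ^ 2 := by
    apply mul_le_mul_of_nonneg_left _ a1
    nlinarith
  have e4 : |c0| ≤ |c0| * p ^ 2 := by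
    nlinarith [mul_nonneg a0 (by nlinarith : (0 : ℝ) ≤ p ^ 2 - 1)]
  have e5 : (1 + |c2| + |c1| + |c0|) * p ^ 2 < p * p ^ 2 := by
    apply mul_lt_mul_of_pos_right hp (by positivity)
  nlinarith

/-- The coefficient of `M_{k+1} - M_k`, four times. -/
noncomputable def W (i p : ℝ) : ℝ := (2 * p ^ 2 - 2 - (p - 1 - 2 * i) ^ 2) * (p - 2 * i + 1)
/-- The coefficient of `M_k - M_{k-1}`, four times. -/
noncomputable def G (i p : ℝ) : ℝ := (2 * p ^ 2 - 2 - (p + 1 - 2 * i) ^ 2) * (p - 2 * i - 1)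
/-- The coefficient of `M_k`, four times. -/
noncomputable def E (i p : ℝ) : ℝ := -32 * i * (p - 2 * i) * (p - i)

lemma ev_W (i : ℝ) : ∀ᶠ p : ℝ in atTop, 0 < W i p := by
  filter_upwards [cubic_pos (3 + 2 * i) (-1 - 4 * i - 12 * i ^ 2)
    (-(3 - 2 * i - 4 * i ^ 2 - 8 * i ^ 3))] with p hp
  have : W i p = p ^ 3 + (3 + 2 * i) * p ^ 2 + (-1 - 4 * i - 12 * i ^ 2) * p
    + (-(3 - 2 * i - 4 * i ^ 2 - 8 * i ^ 3)) := by unfold W; ring
  rw [this]; exact hp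

lemma ev_G (i : ℝ) : ∀ᶠ p : ℝ in atTop, 0 < G i p := by
  filter_upwards [cubic_pos (-3 + 2 * i) (-2 - (1 - 2 * i) ^ 2 + 2 * (1 - 2 * i) * (1 + 2 * i))
    ((2 + (1 - 2 * i) ^ 2) * (1 + 2 * i))] with p hp
  have : G i p = p ^ 3 + (-3 + 2 * i) * p ^ 2
    + (-2 - (1 - 2 * i) ^ 2 + 2 * (1 - 2 * i) * (1 + 2 * i)) * p
    + ((2 + (1 - 2 * i) ^ 2) * (1 + 2 * i)) := by unfold G; ring
  rw [this]; exact hp

lemma ev_E (i : ℝ) : ∀ᶠ p : ℝ in atTop, (-32 * i - 1) * W i p ≤ p * E i p := by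
  filter_upwards [cubic_pos (96 * i ^ 2 + (32 * i + 1) * (3 + 2 * i))
    (-64 * i ^ 3 + (32 * i + 1) * (-1 - 4 * i - 12 * i ^ 2))
    (-(32 * i + 1) * (3 - 2 * i - 4 * i ^ 2 - 8 * i ^ 3))] with p hp
  have : p * E i p - (-32 * i - 1) * W i p = p ^ 3 + (96 * i ^ 2 + (32 * i + 1) * (3 + 2 * i)) * p ^ 2
    + (-64 * i ^ 3 + (32 * i + 1) * (-1 - 4 * i - 12 * i ^ 2)) * p
    + (-(32 * i + 1) * (3 - 2 * i - 4 * i ^ 2 - 8 * i ^ 3)) := by unfold E W; ring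
  linarith

lemma ev_GW (i : ℝ) : ∀ᶠ p : ℝ in atTop, (p - 7) * W i p ≤ p * G i p := by
  filter_upwards [cubic_pos
    (-2 - (1 - 2 * i) ^ 2 + 2 * (1 - 2 * i) * (1 + 2 * i) - (-1 - 4 * i - 12 * i ^ 2)
      + 7 * (3 + 2 * i))
    ((2 + (1 - 2 * i) ^ 2) * (1 + 2 * i) + (3 - 2 * i - 4 * i ^ 2 - 8 * i ^ 3)
      + 7 * (-1 - 4 * i - 12 * i ^ 2))
    (-7 * (3 - 2 * i - 4 * i ^ 2 - 8 * i ^ 3))] with p hp
  have : p * G i p - (p - 7) * W i p = p ^ 3
    + (-2 - (1 - 2 * i) ^ 2 + 2 * (1 - 2 * i) * (1 + 2 * i) - (-1 - 4 * i - 12 * i ^ 2)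
      + 7 * (3 + 2 * i)) * p ^ 2
    + ((2 + (1 - 2 * i) ^ 2) * (1 + 2 * i) + (3 - 2 * i - 4 * i ^ 2 - 8 * i ^ 3)
      + 7 * (-1 - 4 * i - 12 * i ^ 2)) * p
    + (-7 * (3 - 2 * i - 4 * i ^ 2 - 8 * i ^ 3)) := by unfold G W; ring
  linarith

/-- The lower bound for the relative increments. -/
noncomputable def aa (K i : ℝ) : ℝ := 2 * (K + i) * (8 * (K - i) - 9)

lemma aa_succ (K i : ℝ) : aa K (i + 1) = aa K i - 32 * (i + 1) - 2 := by unfold aa; ring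

/-- One step. -/
lemma step {p i a a' m0 m1 m2 : ℝ} (hp : 0 < p) (hW : 0 < W i p) (hG : 0 < G i p)
    (hE : (-32 * i - 1) * W i p ≤ p * E i p) (hGW : (p - 7) * W i p ≤ p * G i p)
    (ha0 : 0 ≤ a) (ha' : a' = a - 32 * i - 2) (hpa : a * (a + 7) ≤ p)
    (hm1 : 0 < m1) (hrec : W i p * (m2 - m1) = E i p * m1 + G i p * (m1 - m0))
    (hD : a * m0 ≤ p * (m1 - m0)) : a' * m1 ≤ p * (m2 - m1) := by
  -- (m1 - m0) (p + a) ≥ a m1
  have h1 : a * m1 ≤ (p + a) * (m1 - m0) := by nlinarith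
  have hpa0 : 0 < p + a := by linarith
  -- G (m1 - m0) (p + a) ≥ G a m1
  have h2 : G i p * (a * m1) ≤ G i p * ((p + a) * (m1 - m0)) := mul_le_mul_of_nonneg_left h1 hG.le
  -- p (p + a) W (m2 - m1) = (p + a) p E m1 + p G (p + a) (m1 - m0)
  have h3 : (p + a) * p * (W i p * (m2 - m1))
      = (p + a) * (p * E i p) * m1 + p * (G i p * ((p + a) * (m1 - m0))) := by
    rw [hrec]; ring
  have h4 : (p + a) * ((-32 * i - 1) * W i p) * m1 ≤ (p + a) * (p * E i p) * m1 := by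
    apply mul_le_mul_of_nonneg_right _ hm1.le
    exact mul_le_mul_of_nonneg_left hE hpa0.le
  have h5 : (p - 7) * W i p * (a * m1) ≤ p * G i p * (a * m1) := by
    apply mul_le_mul_of_nonneg_right hGW
    positivity
  have h6 : p * (G i p * (a * m1)) ≤ p * (G i p * ((p + a) * (m1 - m0))) :=
    mul_le_mul_of_nonneg_left h2 hp.le
  -- collect
  have h7 : W i p * (((p + a) * (-32 * i - 1) + (p - 7) * a) * m1)
      ≤ W i p * ((p + a) * (p * (m2 - m1))) := by nlinarith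
  have h8 : ((p + a) * (-32 * i - 1) + (p - 7) * a) * m1 ≤ (p + a) * (p * (m2 - m1)) :=
    le_of_mul_le_mul_left h7 hW
  have h9 : (p + a) * (a' * m1) ≤ ((p + a) * (-32 * i - 1) + (p - 7) * a) * m1 := by
    have : (p + a) * a' ≤ (p + a) * (-32 * i - 1) + (p - 7) * a := by
      rw [ha']; nlinarith
    nlinarith
  exact le_of_mul_le_mul_left (h9.trans h8) hpa0

end Pool.Agent.Run7.h386.FC
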