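import Pool.Agent.Run7.h386.FC.Rec

set_option autoImplicit false

/-!
Feynman checkers: the sums over paths are given by the recursion `am`.
-/

namespace Pool.Agent.Run7.h386.FC

open Finset

/-- the step `±1` -/
def st (b : Bool) : ℤ := if b then 1 else -1

/-- number of turns -/
def tn (n : ℕ) (s : Fin (n + 1) → Bool) : ℕ :=
  (univ.filter (fun i : Fin n => s i.castSucc ≠ s i.succ)).card

/-- the sum over the paths with the last step `b` -/
noncomputable def FF (n : ℕ) (y : ℤ) (b : Bool) : ℂ :=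
  ∑ s : Fin (n + 1) → Bool,
    if s 0 = true ∧ ∑ i, st (s i) = y ∧ s (Fin.last n) = b then (-Complex.I) ^ tn n s else 0

lemma tn_snoc (n : ℕ) (s : Fin (n + 1) → Bool) (c : Bool) :
    tn (n + 1) (Fin.snoc s c : Fin (n + 2) → Bool) = tn n s + (if s (Fin.last n) ≠ c then 1 else 0) := by
  unfold tn
  rw [card_filter, card_filter, Fin.sum_univ_castSucc]
  congr 1
  · apply sum_congr rfl
    intro i _
    rw [Fin.succ_castSucc]
    simp only [Fin.snoc_castSucc]
  · rw [Fin.succ_last]
    simp only [Fin.snoc_castSucc, Fin.snoc_last]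

lemma sum_snoc (n : ℕ) (s : Fin (n + 1) → Bool) (c : Bool) :
    ∑ i, st ((Fin.snoc s c : Fin (n + 2) → Bool) i) = ∑ i, st (s i) + st c := by
  rw [Fin.sum_univ_castSucc]
  simp only [Fin.snoc_castSucc, Fin.snoc_last]

lemma zero_snoc (n : ℕ) (s : Fin (n + 1) → Bool) (c : Bool) :
    (Fin.snoc s c : Fin (n + 2) → Bool) 0 = s 0 := by
  have : (0 : Fin (n + 2)) = Fin.castSucc 0 := rfl
  rw [this, Fin.snoc_castSucc]

lemma FF_succ (n : ℕ) (y : ℤ) (c : Bool) :
    FF (n + 1) y c = FF n (y - st c) c + (-Complex.I) * FF n (y - st c) (!c) := by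
  unfold FF
  rw [← (Fin.snocEquiv (fun _ : Fin (n + 2) => Bool)).sum_comp, Fintype.sum_prod_type]
  have hb : ∀ b : Bool, ∑ s : Fin (n + 1) → Bool,
      (if (Fin.snoc s b : Fin (n + 2) → Bool) 0 = true ∧
          ∑ i, st ((Fin.snoc s b : Fin (n + 2) → Bool) i) = y ∧
          (Fin.snoc s b : Fin (n + 2) → Bool) (Fin.last (n + 1)) = c
        then (-Complex.I) ^ tn (n + 1) (Fin.snoc s b : Fin (n + 2) → Bool) else 0)
      = if b = c then (∑ s : Fin (n + 1) → Bool,
          ((if s 0 = true ∧ ∑ i, st (s i) = y - st c ∧ s (Fin.last n) = c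
            then (-Complex.I) ^ tn n s else 0)
          + (-Complex.I) * (if s 0 = true ∧ ∑ i, st (s i) = y - st c ∧ s (Fin.last n) = (!c)
            then (-Complex.I) ^ tn n s else 0))) else 0 := by
    intro b
    by_cases hbc : b = c
    · subst hbc
      rw [if_pos rfl]
      apply sum_congr rfl
      intro s _
      rw [zero_snoc, sum_snoc, Fin.snoc_last, tn_snoc]
      have hiff : ∑ i, st (s i) + st b = y ↔ ∑ i, st (s i) = y - st b :=
        ⟨fun h => by linarith, fun h => by linarith⟩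
      simp only [hiff]
      by_cases h1 : s 0 = true ∧ ∑ i, st (s i) = y - st b
      · by_cases h2 : s (Fin.last n) = b
        · have h3 : ¬ s (Fin.last n) = !b := by rw [h2]; cases b <;> simp
          simp [h1, h2]
        · have h3 : s (Fin.last n) = !b := by
            revert h2; cases b <;> cases s (Fin.last n) <;> simp
          simp [h1, h3, pow_succ]
          try ring
      · have h4 : ¬ (s 0 = true ∧ ∑ i, st (s i) = y - st b ∧ True) := fun h => h1 ⟨h.1, h.2.1⟩
        have h5 : ¬ (s 0 = true ∧ ∑ i, st (s i) = y - st b ∧ s (Fin.last n) = b) :=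
          fun h => h1 ⟨h.1, h.2.1⟩
        have h6 : ¬ (s 0 = true ∧ ∑ i, st (s i) = y - st b ∧ s (Fin.last n) = !b) :=
          fun h => h1 ⟨h.1, h.2.1⟩
        rw [if_neg h4, if_neg h5, if_neg h6]
        simp
    · rw [if_neg hbc]
      apply sum_eq_zero
      intro s _
      rw [Fin.snoc_last, if_neg]
      rintro ⟨_, _, h⟩
      exact hbc h
  have hs : ∀ (b : Bool) (s : Fin (n + 1) → Bool),
      (Fin.snocEquiv (fun _ : Fin (n + 2) => Bool)) (b, s) = (Fin.snoc s b : Fin (n + 2) → Bool) := by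
    intro b s; rfl
  simp only [hs, hb]
  rw [sum_ite_eq' univ c, if_pos (mem_univ c), sum_add_distrib, mul_sum]

lemma FF_zero (y : ℤ) (b : Bool) : FF 0 y b = if y = 1 ∧ b = true then 1 else 0 := by
  unfold FF
  have : ∀ s : Fin 1 → Bool, tn 0 s = 0 := by intro s; simp [tn]
  simp only [this, pow_zero]
  rw [← (Equiv.funUnique (Fin 1) Bool).symm.sum_comp]
  simp only [Fintype.sum_bool]
  cases b <;> by_cases h : y = 1 <;> simp [st, h, eq_comm]

/-- The two components. -/
lemma FF_eq (n : ℕ) : ∀ y : ℤ, FF n y true = ((am n y).1 : ℂ) ∧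
    FF n y false = -Complex.I * ((am n y).2 : ℂ) := by
  induction n with
  | zero =>
    intro y
    rw [FF_zero, FF_zero, am_zero]
    by_cases h : y = 1 <;> simp [h]
  | succ n ih =>
    intro y
    rw [FF_succ, FF_succ, am_succ]
    have e1 : y - st true = y - 1 := by simp [st]
    have e2 : y - st false = y + 1 := by simp [st]
    rw [e1, e2]
    simp only [Bool.not_true, Bool.not_false]
    rw [(ih (y - 1)).1, (ih (y - 1)).2, (ih (y + 1)).1, (ih (y + 1)).2]
    push_cast
    constructor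
    · have := Complex.I_sq
      linear_combination ((am n (y - 1)).2 : ℂ) * this
    · ring

/-- The sum over all paths. -/
lemma sum_paths (n : ℕ) (y : ℤ) :
    ∑ s ∈ Finset.univ.filter (fun s : Fin (n+1) → Bool =>
        s 0 = true ∧ ∑ i, (if s i then (1:ℤ) else -1) = y),
      (-Complex.I) ^ ((Finset.univ.filter (fun i : Fin n => s i.castSucc ≠ s i.succ)).card)
    = ((am n y).1 : ℂ) - Complex.I * ((am n y).2 : ℂ) := by
  have h : ((am n y).1 : ℂ) - Complex.I * ((am n y).2 : ℂ) = FF n y true + FF n y false := by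
    rw [(FF_eq n y).1, (FF_eq n y).2]; ring
  rw [h]
  unfold FF
  rw [← sum_add_distrib, sum_filter]
  apply sum_congr rfl
  intro s _
  have e : (∑ i, (if s i then (1:ℤ) else -1)) = ∑ i, st (s i) := rfl
  rw [e]
  unfold tn
  by_cases h1 : s 0 = true ∧ ∑ i, st (s i) = y
  · cases h2 : s (Fin.last n) <;> simp [h1]
  · rw [if_neg h1, if_neg (fun h => h1 ⟨h.1, h.2.1⟩), if_neg (fun h => h1 ⟨h.1, h.2.1⟩)]
    simp

lemma norm_sum_paths (n : ℕ) (y : ℤ) :
    ‖∑ s ∈ Finset.univ.filter (fun s : Fin (n+1) → Bool =>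
        s 0 = true ∧ ∑ i, (if s i then (1:ℤ) else -1) = y),
      (-Complex.I) ^ ((Finset.univ.filter (fun i : Fin n => s i.castSucc ≠ s i.succ)).card)‖ ^ 2
    = (am n y).1 ^ 2 + (am n y).2 ^ 2 := by
  rw [sum_paths, ← Complex.normSq_eq_norm_sq, Complex.normSq_apply]
  simp
  ring

end Pool.Agent.Run7.h386.FC
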