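import Mathlib

set_option autoImplicit false

/-!
Feynman checkers: the two components of the amplitude at the time `n + 1`, as real valued functions,
and their first order relations in space at a fixed time.
-/

namespace Pool.Agent.Run7.h386.FC

/-- The two components of the amplitude (without the factor `2 ^ (-n/2)`): the paths whose last
step is to the right, and the paths whose last step is to the left. -/
noncomputable def am : ℕ → ℤ → ℝ × ℝ
  | 0, y => (if y = 1 then 1 else 0, 0)
  | n + 1, y => ((am n (y - 1)).1 - (am n (y - 1)).2, (am n (y + 1)).1 + (am n (y + 1)).2)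

lemma am_zero (y : ℤ) : am 0 y = (if y = 1 then 1 else 0, 0) := rfl

lemma am_succ (n : ℕ) (y : ℤ) : am (n + 1) y =
    ((am n (y - 1)).1 - (am n (y - 1)).2, (am n (y + 1)).1 + (am n (y + 1)).2) := rfl

/-- First order relations in space at a fixed time. -/
lemma rel (n : ℕ) : ∀ y : ℤ,
    ((n : ℝ) + 1 - y) * (am n y).1 = (n - 1 - y) * (am n (y + 2)).1 - 2 * y * (am n y).2 ∧
    ((n : ℝ) + 1 + y) * ((am n y).2 - (am n (y + 2)).2) = 2 * (y + 1) * (am n (y + 2)).1 := by
  induction n with
  | zero =>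
    intro y
    simp only [am_zero]
    constructor
    · by_cases h1 : y = 1
      · subst h1; norm_num
      · by_cases h2 : y + 2 = 1
        · have : y = -1 := by omega
          subst this; norm_num
        · simp [h1, h2]
    · by_cases h2 : y + 2 = 1
      · have : y = -1 := by omega
        subst this; norm_num
      · simp [h2]
  | succ n ih =>
    intro y
    simp only [am_succ]
    have e1 : y + 2 - 1 = y + 1 := by ring
    have e2 : y + 2 + 1 = y + 3 := by ring
    have e3 : y - 1 + 2 = y + 1 := by ring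
    have e4 : y + 1 + 2 = y + 3 := by ring
    obtain ⟨a1, b1⟩ := ih (y - 1)
    obtain ⟨a2, b2⟩ := ih (y + 1)
    rw [e3] at a1 b1
    rw [e4] at a2 b2
    rw [e1, e2]
    push_cast at a1 b1 a2 b2 ⊢
    constructor
    · linear_combination a1 - b1
    · linear_combination b2 + a2

/-- The support. -/
lemma supp_right (n : ℕ) : ∀ y : ℤ, (n : ℤ) + 1 < y → am n y = (0, 0) := by
  induction n with
  | zero =>
    intro y hy
    have : y ≠ 1 := by push_cast at hy; omega
    simp [am_zero, this]
  | succ n ih =>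
    intro y hy
    push_cast at hy
    have h1 := ih (y - 1) (by omega)
    have h2 := ih (y + 1) (by omega)
    simp [am_succ, h1, h2]

lemma supp_left (n : ℕ) : ∀ y : ℤ, y < -(n : ℤ) → am n y = (0, 0) := by
  induction n with
  | zero =>
    intro y hy
    have : y ≠ 1 := by push_cast at hy; omega
    simp [am_zero, this]
  | succ n ih =>
    intro y hy
    push_cast at hy
    have h1 := ih (y - 1) (by omega)
    have h2 := ih (y + 1) (by omega)
    simp [am_succ, h1, h2]

lemma am_top (n : ℕ) : am n ((n : ℤ) + 1) = (1, 0) := by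
  induction n with
  | zero => simp [am_zero]
  | succ n ih =>
    have h2 := supp_right n ((n : ℤ) + 1 + 1 + 1) (by omega)
    have e : ((n : ℤ) + 1 + 1 - 1) = n + 1 := by ring
    simp only [am_succ]
    push_cast
    rw [e, ih, h2]
    simp

/-- parity -/
lemma am_parity (n : ℕ) : ∀ y : ℤ, (y + n) % 2 = 0 → am n y = (0, 0) := by
  induction n with
  | zero =>
    intro y hy
    have : y ≠ 1 := by rintro rfl; norm_num at hy
    simp [am_zero, this]
  | succ n ih =>
    intro y hy
    push_cast at hy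
    have h1 := ih (y - 1) (by omega)
    have h2 := ih (y + 1) (by omega)
    simp [am_succ, h1, h2]

/-- `R_k = (-1)^k r(n, n + 1 - 2 k)` -/
noncomputable def RR (n : ℕ) (k : ℕ) : ℝ := (-1) ^ k * (am n ((n : ℤ) + 1 - 2 * k)).1

/-- `M_k = - (-1)^k l(n, n + 1 - 2 k)` -/
noncomputable def MM (n : ℕ) (k : ℕ) : ℝ := -((-1) ^ k * (am n ((n : ℤ) + 1 - 2 * k)).2)

lemma MM_zero (n : ℕ) : MM n 0 = 0 := by
  have := am_top n
  simp [MM, this]

lemma RR_zero (n : ℕ) : RR n 0 = 1 := by
  have := am_top n
  simp [RR, this]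

/-- `(k + 1) R_{k+1} + k R_k = y M_{k+1}`, `y = n - 1 - 2 k` -/
lemma relA (n k : ℕ) : ((k : ℝ) + 1) * RR n (k + 1) + k * RR n k
    = ((n : ℝ) - 1 - 2 * k) * MM n (k + 1) := by
  have h := (rel n ((n : ℤ) + 1 - 2 * (k + 1 : ℕ))).1
  have e : ((n : ℤ) + 1 - 2 * (k + 1 : ℕ)) + 2 = (n : ℤ) + 1 - 2 * k := by push_cast; ring
  rw [e] at h
  unfold RR MM
  rw [pow_succ]
  push_cast at h ⊢
  have hs : ((-1 : ℝ) ^ k) ^ 2 = 1 := by rw [← pow_mul, mul_comm, pow_mul]; norm_num
  linear_combination (-(1/2 : ℝ) * (-1) ^ k) * h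

/-- `(n - k) (M_{k+1} + M_k) = (n - 2 k) R_k` -/
lemma relB (n k : ℕ) : ((n : ℝ) - k) * (MM n (k + 1) + MM n k) = ((n : ℝ) - 2 * k) * RR n k := by
  have h := (rel n ((n : ℤ) + 1 - 2 * (k + 1 : ℕ))).2
  have e : ((n : ℤ) + 1 - 2 * (k + 1 : ℕ)) + 2 = (n : ℤ) + 1 - 2 * k := by push_cast; ring
  rw [e] at h
  unfold RR MM
  rw [pow_succ]
  push_cast at h ⊢
  linear_combination ((1/2 : ℝ) * (-1) ^ k) * h

end Pool.Agent.Run7.h386.FC
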